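import Mathlib
import Pool.Agent.H20.Gamma

set_option autoImplicit false

namespace Pool.Agent.Results.MP_b9dfd5_co.TwoCycle

/-- `S` is a dominating set of `G`. -/
def IsDominating {V : Type} (G : SimpleGraph V) (S : Finset V) : Prop :=
  ∀ v, v ∉ S → ∃ u ∈ S, G.Adj u v

/-- `S` is a minimum dominating set of `G`. -/
def IsGammaSet {V : Type} (G : SimpleGraph V) (S : Finset V) : Prop :=
  IsDominating G S ∧ ∀ T : Finset V, IsDominating G T → S.card ≤ T.card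

/-- The gamma-graph (slide adjacency model). -/
def gammaGraph {V : Type} [DecidableEq V] (G : SimpleGraph V) :
    SimpleGraph {S : Finset V // IsGammaSet G S} where
  Adj S T := S ≠ T ∧ ∃ v₁ ∈ S.1, ∃ v₂ ∈ T.1, G.Adj v₁ v₂ ∧ T.1 = insert v₂ (S.1.erase v₁)
  symm := ⟨by
    rintro S T ⟨hne, v₁, h₁, v₂, h₂, hadj, hT⟩
    have hc : S.1.card = T.1.card := le_antisymm (S.2.2 _ T.2.1) (T.2.2 _ S.2.1)
    have hv : v₂ ∉ S.1.erase v₁ := by
      intro h
      rw [Finset.insert_eq_of_mem h] at hT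
      have := Finset.card_erase_lt_of_mem h₁
      rw [← hT] at this
      omega
    refine ⟨hne.symm, v₂, h₂, v₁, h₁, hadj.symm, ?_⟩
    rw [hT, Finset.erase_insert hv, Finset.insert_erase h₁]⟩
  loopless := ⟨fun S h => h.1 rfl⟩

theorem conv (G H : SimpleGraph (Fin 12))
    (h : ∃ e : Fin 12 ≃
          {S : Finset (Fin 12) //
            (∀ v, v ∈ S ∨ ∃ u ∈ S, G.Adj u v) ∧
            ∀ T : Finset (Fin 12),
              (∀ v, v ∈ T ∨ ∃ u ∈ T, G.Adj u v) → S.card ≤ T.card},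
        ∀ a b, H.Adj a b ↔
          ∃ u v, u ∈ (e a).1 ∧ v ∉ (e a).1 ∧ G.Adj u v ∧
            (e b).1 = insert v ((e a).1.erase u)) : Nonempty (gammaGraph G ≃g H) := by
  obtain ⟨e, he⟩ := h
  have d : ∀ S : Finset (Fin 12), (∀ v, v ∈ S ∨ ∃ u ∈ S, G.Adj u v) ↔ IsDominating G S := by
    intro S
    refine forall_congr' fun v => ?_
    by_cases hv : v ∈ S <;> simp [hv]
  have d2 : ∀ S : Finset (Fin 12), ((∀ v, v ∈ S ∨ ∃ u ∈ S, G.Adj u v) ∧
            ∀ T : Finset (Fin 12),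
              (∀ v, v ∈ T ∨ ∃ u ∈ T, G.Adj u v) → S.card ≤ T.card) ↔ IsGammaSet G S := by
    intro S
    simp only [d, IsGammaSet]
  refine ⟨SimpleGraph.Iso.symm ⟨e.trans (Equiv.subtypeEquivRight d2), ?_⟩⟩
  intro a b
  rw [he]
  change (_ ≠ _ ∧ ∃ v₁ ∈ (e a).1, ∃ v₂ ∈ (e b).1, G.Adj v₁ v₂ ∧
    (e b).1 = insert v₂ ((e a).1.erase v₁)) ↔ _
  constructor
  · rintro ⟨hne, v₁, h₁, v₂, h₂, hadj, hT⟩
    refine ⟨v₁, v₂, h₁, fun h => ?_, hadj, hT⟩
    have hc : (e a).1.card ≤ (e b).1.card := (e a).2.2 _ (e b).2.1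
    rw [Finset.insert_eq_of_mem (Finset.mem_erase.2 ⟨hadj.ne', h⟩)] at hT
    have := Finset.card_erase_lt_of_mem h₁
    rw [← hT] at this
    omega
  · rintro ⟨u, v, h₁, h₂, hadj, hT⟩
    refine ⟨fun h => h₂ ?_, u, h₁, v, by rw [hT]; exact Finset.mem_insert_self _ _, hadj, hT⟩
    have h3 : (e a).1 = (e b).1 := by
      rw [(e.trans (Equiv.subtypeEquivRight d2)).injective h]
    rw [h3, hT]
    exact Finset.mem_insert_self _ _

theorem result : ∃ G H : SimpleGraph (Fin 12),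
    IsEmpty (G ≃g H) ∧ Nonempty (gammaGraph G ≃g H) ∧ Nonempty (gammaGraph H ≃g G) :=
  ⟨H20.Gamma.G1, H20.Gamma.G0, H20.Gamma.noniso, conv _ _ H20.Gamma.s10, conv _ _ H20.Gamma.s01⟩

end Pool.Agent.Results.MP_b9dfd5_co.TwoCycle
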